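import Mathlib

namespace Pool.Agent.H975Z.LF

universe u v

/-- The image `F(A)` of a subset `A` of a module under the linear form
`F(x_1, ..., x_h) = r_1 x_1 + ... + r_h x_h`; the `a_i` need not be distinct. -/
def formImage {R : Type u} [Ring R] {h : ℕ} (r : Fin h → R)
    {W : Type v} [AddCommGroup W] [Module R W] (A : Set W) : Set W :=
  {w | ∃ a : Fin h → W, (∀ i, a i ∈ A) ∧ ∑ i, r i • a i = w}

/-- Property (S) of the pair of linear forms `F` (coefficients `r`) and `G` (coefficients `s`):
for all `ε > 0` and `c > 0` there are a finite left `R`-module `W` with `|W| > c` and `A ⊆ W`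
with `F(A) = W` and `|G(A)| < ε |W|`. -/
def PropertyS {R : Type u} [Ring R] {h g : ℕ} (r : Fin h → R) (s : Fin g → R) : Prop :=
  ∀ ε : ℝ, 0 < ε → ∀ c : ℝ, 0 < c →
    ∃ (W : Type v) (_ : AddCommGroup W) (_ : Module R W) (_ : Finite W) (A : Set W),
      c < (Nat.card W : ℝ) ∧ formImage r A = Set.univ ∧
        ((formImage s A).ncard : ℝ) < ε * (Nat.card W : ℝ)

/-- Given a grouping `τ` of the variables of `G` (variable `j` lies in the group labelled `τ j`)
and an assignment `ι` of each variable of `G` to a variable of `F`, the sum of the coefficients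
`s j` of the variables `j` of group `t` that are assigned to variable `i` of `F`. -/
def blockSum {R : Type u} [Ring R] {h g : ℕ} (s : Fin g → R) (τ : Fin g → ℕ)
    (ι : Fin g → Fin h) (t : ℕ) (i : Fin h) : R :=
  ∑ j ∈ Finset.univ.filter (fun j => τ j = t ∧ ι j = i), s j

end Pool.Agent.H975Z.LF
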