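import Mathlib

namespace Pool.Agent.H975Z.LF

universe u

abbrev QZ : Type := AddCircle (1 : ℚ)

theorem ext_char {A B : Type u} [AddCommGroup A] [AddCommGroup B] (f : A →+ B)
    (hf : Function.Injective f) (φ : A →+ QZ) : ∃ ψ : B →+ QZ, ψ.comp f = φ :=
  (Module.Baer.of_divisible _).extension_property_addMonoidHom f hf φ

theorem sep_char {B : Type u} [AddCommGroup B] (H : AddSubgroup B) {x : B} (hx : x ∉ H) :
    ∃ ψ : B →+ QZ, (∀ y ∈ H, ψ y = 0) ∧ ψ x ≠ 0 := by
  have hne : (QuotientAddGroup.mk x : B ⧸ H) ≠ 0 := by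
    rwa [Ne, QuotientAddGroup.eq_zero_iff]
  obtain ⟨c, hc⟩ := CharacterModule.exists_character_apply_ne_zero_of_ne_zero hne
  let c' : (B ⧸ H) →+ QZ := c
  refine ⟨c'.comp (QuotientAddGroup.mk' H), fun y hy => ?_, hc⟩
  have : (QuotientAddGroup.mk y : B ⧸ H) = 0 := (QuotientAddGroup.eq_zero_iff y).mpr hy
  show c' (QuotientAddGroup.mk y) = 0
  rw [this, map_zero]

theorem finite_char (M : Type u) [AddCommGroup M] [Finite M] : Finite (M →+ QZ) := by
  have hpos : 0 < Nat.card M := Nat.card_pos
  have hfin : {x : QZ | Nat.card M • x = 0}.Finite := AddCircle.finite_torsion _ hpos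
  have : Finite {x : QZ | Nat.card M • x = 0} := hfin.to_subtype
  refine Finite.of_injective
    (fun φ : M →+ QZ => fun m : M => (⟨φ m, ?_⟩ : {x : QZ | Nat.card M • x = 0})) ?_
  · show Nat.card M • φ m = 0
    rw [← map_nsmul, card_nsmul_eq_zero', map_zero]
  · intro φ ψ h
    ext m
    exact congrArg Subtype.val (congrFun h m)

/-- Character group of a right module, as a left module. -/
def RD (R : Type u) (M : Type u) [AddCommGroup M] : Type u := M →+ QZ

instance RD.instACG (R M : Type u) [AddCommGroup M] : AddCommGroup (RD R M) :=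
  inferInstanceAs (AddCommGroup (M →+ QZ))

/-- The underlying additive map. -/
def RD.toHom {R M : Type u} [AddCommGroup M] (φ : RD R M) : M →+ QZ := φ

instance RD.instModule (R M : Type u) [Ring R] [AddCommGroup M] [Module Rᵐᵒᵖ M] :
    Module R (RD R M) where
  smul r φ := (RD.toHom φ).comp (DistribSMul.toAddMonoidHom M (MulOpposite.op r))
  one_smul φ := by
    apply AddMonoidHom.ext; intro m
    show RD.toHom φ (MulOpposite.op (1 : R) • m) = RD.toHom φ m
    simp
  mul_smul a b φ := by
    apply AddMonoidHom.ext; intro m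
    show RD.toHom φ (MulOpposite.op (a * b) • m)
      = RD.toHom φ (MulOpposite.op b • MulOpposite.op a • m)
    rw [MulOpposite.op_mul, mul_smul]
  smul_zero r := rfl
  smul_add r φ ψ := rfl
  add_smul a b φ := by
    apply AddMonoidHom.ext; intro m
    show RD.toHom φ (MulOpposite.op (a + b) • m)
      = RD.toHom φ (MulOpposite.op a • m) + RD.toHom φ (MulOpposite.op b • m)
    rw [MulOpposite.op_add, add_smul, map_add]
  zero_smul φ := by
    apply AddMonoidHom.ext; intro m
    show RD.toHom φ (MulOpposite.op (0 : R) • m) = 0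
    simp

/-- Evaluation at a point. -/
def RD.ev (R : Type u) {M : Type u} [AddCommGroup M] (m : M) : RD R M →+ QZ where
  toFun φ := RD.toHom φ m
  map_zero' := rfl
  map_add' _ _ := rfl

theorem RD.ev_smul {R M : Type u} [Ring R] [AddCommGroup M] [Module Rᵐᵒᵖ M] (m : M) (r : R)
    (φ : RD R M) : RD.ev R m (r • φ) = RD.toHom φ (MulOpposite.op r • m) := rfl

theorem RD.ev_form {R M : Type u} [Ring R] [AddCommGroup M] [Module Rᵐᵒᵖ M] {h : ℕ}
    (m : M) (σ : Fin h → R) (ψ : (Fin h → M) →+ QZ) :
    RD.ev R m (∑ i, σ i • (show RD R M from ψ.comp (AddMonoidHom.single (fun _ => M) i)))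
      = ψ (fun i => MulOpposite.op (σ i) • m) := by
  rw [map_sum]
  have : (fun i => MulOpposite.op (σ i) • m)
      = ∑ i, Pi.single i (MulOpposite.op (σ i) • m) := (Finset.univ_sum_single _).symm
  rw [this, map_sum]
  rfl

theorem exists_dual {R : Type u} [Ring R] {h : ℕ} (r : Fin h → R) (J : Submodule Rᵐᵒᵖ R)
    (hJ : J ≠ ⊤) [Finite (R ⧸ J)] (h0 : ∀ u : R, (∀ i, u * r i ∈ J) → u ∈ J) :
    ∃ (V : Type u) (_ : AddCommGroup V) (_ : Module R V) (_ : Finite V)
      (C : Type) (_ : AddCommGroup C) (_ : Finite C) (_ : Nontrivial C) (π : V →+ C),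
      Function.Surjective π ∧ (∀ z : V, ∃ a : Fin h → V, ∑ i, r i • a i = z) ∧
      ∀ σ : Fin h → R, (∀ u : R, (∀ i, σ i - u * r i ∈ J) → u ∈ J) →
        (∀ a : Fin h → V, π (∑ i, σ i • a i) = 0) ∨
          ∃ b : Fin h → V, ∑ i, r i • b i = 0 ∧ π (∑ i, σ i • b i) ≠ 0 := by
  let M := R ⧸ J
  let m0 : M := Submodule.Quotient.mk 1
  have hmk : ∀ (x y : R), MulOpposite.op y • (Submodule.Quotient.mk x : M)
      = Submodule.Quotient.mk (x * y) := fun x y => rfl
  have hm0 : m0 ≠ 0 := by
    intro h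
    rw [Submodule.Quotient.mk_eq_zero] at h
    apply hJ
    rw [eq_top_iff]
    intro x _
    have := J.smul_mem (MulOpposite.op x) h
    simpa using this
  have hfin : Finite (RD R M) := finite_char M
  let ρ : M →+ (Fin h → M) :=
    AddMonoidHom.pi (fun i => DistribSMul.toAddMonoidHom M (MulOpposite.op (r i)))
  have hρ : ∀ m i, ρ m i = MulOpposite.op (r i) • m := fun _ _ => rfl
  have hρinj : Function.Injective ρ := by
    rw [injective_iff_map_eq_zero]
    intro m hm
    obtain ⟨x, rfl⟩ := Submodule.Quotient.mk_surjective J m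
    rw [Submodule.Quotient.mk_eq_zero]
    apply h0
    intro i
    have := congrFun hm i
    rw [hρ, hmk] at this
    exact (Submodule.Quotient.mk_eq_zero J).mp this
  have hext : ∀ φ ψ : RD R M, (∀ m, RD.ev R m φ = RD.ev R m ψ) → φ = ψ :=
    fun φ ψ hh => AddMonoidHom.ext hh
  refine ⟨RD R M, inferInstance, inferInstance, hfin, (RD.ev R m0).range, inferInstance,
    Finite.of_surjective _ (RD.ev R m0).rangeRestrict_surjective, ?_,
    (RD.ev R m0).rangeRestrict, (RD.ev R m0).rangeRestrict_surjective, ?_, ?_⟩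
  · obtain ⟨ψ, -, hψ⟩ := sep_char (⊥ : AddSubgroup M) (x := m0) (by simpa using hm0)
    refine ⟨⟨(RD.ev R m0).rangeRestrict (show RD R M from ψ), 0, fun hh => hψ ?_⟩⟩
    exact congrArg Subtype.val hh
  · intro z
    obtain ⟨ψ, hψ⟩ := ext_char ρ hρinj (RD.toHom z)
    refine ⟨fun i => ψ.comp (AddMonoidHom.single (fun _ => M) i), hext _ _ (fun m => ?_)⟩
    rw [RD.ev_form]
    exact DFunLike.congr_fun hψ m
  · intro σ hσ
    by_cases hin : (fun i => MulOpposite.op (σ i) • m0) ∈ ρ.range
    · left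
      obtain ⟨m, hm⟩ := hin
      obtain ⟨x, rfl⟩ := Submodule.Quotient.mk_surjective J m
      have h1 : ∀ i, σ i - x * r i ∈ J := by
        intro i
        have := congrFun hm i
        rw [hρ, hmk] at this
        have h2 : (Submodule.Quotient.mk (x * r i) : M) = Submodule.Quotient.mk (1 * σ i) := this
        rw [one_mul] at h2
        exact (Submodule.Quotient.eq J).mp h2.symm
      have hx := hσ x h1
      have h3 : ∀ i, MulOpposite.op (σ i) • m0 = 0 := by
        intro i
        have h4 : x * r i ∈ J := J.smul_mem (MulOpposite.op (r i)) hx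
        have h5 : σ i ∈ J := by simpa using J.add_mem (h1 i) h4
        show (Submodule.Quotient.mk (1 * σ i) : M) = 0
        rw [one_mul]
        exact (Submodule.Quotient.mk_eq_zero J).mpr h5
      intro a
      apply Subtype.ext
      show RD.ev R m0 (∑ i, σ i • a i) = 0
      rw [map_sum]
      refine Finset.sum_eq_zero (fun i _ => ?_)
      rw [RD.ev_smul, h3, map_zero]
    · right
      obtain ⟨ψ, hψ0, hψ⟩ := sep_char ρ.range hin
      refine ⟨fun i => ψ.comp (AddMonoidHom.single (fun _ => M) i), hext _ _ (fun m => ?_),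
        fun hh => hψ ?_⟩
      · rw [RD.ev_form]
        exact hψ0 _ ⟨m, rfl⟩
      · rw [← RD.ev_form]
        exact congrArg Subtype.val hh

end Pool.Agent.H975Z.LF
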