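import Mathlib

namespace Pool.Agent.H975Z.LF

open Classical in
/-- Short lists. -/
theorem list_small {Φ G : Type} [Finite Φ] [Fintype G] [Nonempty G] (x : (Φ → G) → G) :
    ∃ Ls : Finset Φ, Ls.card ≤ Fintype.card G ∧ ∀ φ : Φ, (∀ κ : Φ → G, κ φ ≠ x κ) → φ ∈ Ls := by
  have : Fintype Φ := Fintype.ofFinite Φ
  refine ⟨Finset.univ.filter (fun φ : Φ => ∀ κ : Φ → G, κ φ ≠ x κ), ?_, fun φ h => by simpa using h⟩
  by_contra hcon
  push Not at hcon
  obtain ⟨f, hf⟩ := Function.Embedding.exists_of_card_le_finset hcon.le
  have h1 := hf ⟨x (Function.invFun f), rfl⟩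
  simp only [Finset.coe_filter, Finset.mem_univ, true_and, Set.mem_ofPred_eq] at h1
  exact h1 (Function.invFun f) (Function.leftInverse_invFun f.injective _)

/-- The vector with entries `k` where `ε` holds and `0` elsewhere. -/
def mv {N C : Type} [AddCommGroup C] (ε : N → Bool) (k : C) : N → C :=
  fun n => if ε n then k else 0

theorem mv_inj {N C : Type} [AddCommGroup C] {k : C} (hk : k ≠ 0) :
    Function.Injective (fun ε : N → Bool => mv ε k) := by
  intro a b hab
  funext n
  have := congrFun hab n
  simp only [mv] at this
  cases ha : a n <;> cases hb : b n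
  · rfl
  · rw [ha, hb] at this; simp at this; exact absurd this.symm hk
  · rw [ha, hb] at this; simp at this; exact absurd this hk
  · rfl

set_option maxHeartbeats 400000 in
open Classical in
theorem star {C : Type} [AddCommGroup C] [Finite C] [Nontrivial C] {L : Type} (k : L → C)
    (s : Finset L) (hk : ∀ t ∈ s, k t ≠ 0) :
    ∃ (N : Type) (_ : Fintype N) (T : L → Set (N → C)) (v : N → C),
      (∀ t ∈ s, ∀ c : N → C, ∃ ε : N → Bool, c + mv ε (k t) ∈ T t) ∧
      ∀ c : L → N → C, (∀ t ∈ s, c t ∈ T t) → ∑ t ∈ s, c t ≠ v := by
  induction s using Finset.induction_on with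
  | empty =>
    obtain ⟨x, hx⟩ := exists_ne (0 : C)
    refine ⟨Unit, inferInstance, fun _ => Set.univ, fun _ => x, by simp, ?_⟩
    intro c _ h
    have := congrFun h ()
    simp at this
    exact hx this.symm
  | insert t0 s ht0 ih =>
    obtain ⟨N0, instN0, T, v, hT, hv⟩ := ih (fun t ht => hk t (Finset.mem_insert_of_mem ht))
    have : Fintype C := Fintype.ofFinite C
    set q := Fintype.card (N0 → C) with hq
    set n1 := q ^ s.card with hn1
    have hn1lt : n1 < 2 ^ n1 := Nat.lt_two_pow_self
    let Φ := Fin n1 → C
    let I := s × (Φ → (N0 → C))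
    let N := (I × N0) ⊕ Fin n1
    let g : (N → C) → I → N0 → C := fun x i n => x (Sum.inl (i, n))
    let f : (N → C) → Φ := fun x n => x (Sum.inr n)
    let sh : L → I → Φ → N0 → C := fun t i φ => if i.1.1 = t then i.2 φ else 0
    let T1 : L → Set (N → C) := fun t => {x | ∀ i : I, g x i - sh t i (f x) ∈ T t}
    let T0 : Set (N → C) :=
      {x | ∀ c : L → N → C, (∀ t ∈ s, c t ∈ T1 t) → x + ∑ t ∈ s, c t ≠ 0}
    refine ⟨N, inferInstance, fun t => if t = t0 then T0 else T1 t, 0, ?_, ?_⟩
    · intro t ht x
      rcases Finset.mem_insert.mp ht with rfl | hts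
      · simp only [if_true]
        choose Ls hLs hLs' using fun u : s =>
          list_small (Φ := Φ) (G := N0 → C) (fun κ => - g x (u, κ) - v)
        let Bad : Finset Φ :=
          (Fintype.piFinset Ls).image (fun φ : s → Φ => - ∑ u, φ u)
        have hBad : Bad.card < Fintype.card (Fin n1 → Bool) := by
          have h1 : Bad.card ≤ (Fintype.piFinset Ls).card := Finset.card_image_le
          have h2 : (Fintype.piFinset Ls).card ≤ n1 := by
            rw [Fintype.card_piFinset]
            calc ∏ u, (Ls u).card ≤ ∏ _u : s, q := Finset.prod_le_prod' (fun u _ => hLs u)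
              _ = n1 := by simp [hn1]
          have h3 : Fintype.card (Fin n1 → Bool) = 2 ^ n1 := by simp
          omega
        have hex : ∃ ε : Fin n1 → Bool, f x + mv ε (k t) ∉ Bad := by
          by_contra hcon
          push Not at hcon
          have hinj : Function.Injective (fun ε : Fin n1 → Bool => f x + mv ε (k t)) :=
            fun a b hab => mv_inj (hk t (Finset.mem_insert_self _ _)) (add_left_cancel hab)
          have := Finset.card_le_card_of_injOn (s := Finset.univ) (t := Bad)
            (fun ε : Fin n1 → Bool => f x + mv ε (k t)) (fun a _ => hcon a) hinj.injOn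
          rw [Finset.card_univ] at this
          omega
        obtain ⟨ε, hε⟩ := hex
        refine ⟨Sum.elim (fun _ => false) ε, ?_⟩
        intro c hc hsum
        apply hε
        refine Finset.mem_image.mpr ⟨fun u => f (c u), ?_, ?_⟩
        · rw [Fintype.mem_piFinset]
          intro u
          apply hLs'
          intro κ hκ
          have h1 := hv (fun t' => g (c t') (u, κ) - sh t' (u, κ) (f (c t')))
            (fun t' ht' => hc t' ht' (u, κ))
          apply h1
          rw [Finset.sum_sub_distrib]
          have h2 : ∑ t' ∈ s, sh t' (u, κ) (f (c t')) = κ (f (c u)) := by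
            simp only [sh]
            rw [Finset.sum_ite_eq]
            simp
          have h3 : ∑ t' ∈ s, g (c t') (u, κ) = - g x (u, κ) := by
            funext n
            have := congrFun hsum (Sum.inl ((u, κ), n))
            simp only [Pi.add_apply, mv, Sum.elim_inl, Finset.sum_apply, Pi.zero_apply] at this
            simp only [g, Finset.sum_apply, Pi.neg_apply]
            simp at this
            exact eq_neg_of_add_eq_zero_right this
          rw [h2, h3, hκ]
          abel
        · funext n
          have := congrFun hsum (Sum.inr n)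
          simp only [Pi.add_apply, mv, Sum.elim_inr, Finset.sum_apply, Pi.zero_apply] at this
          have e1 : (- ∑ u : s, f (c u)) n = - ∑ u ∈ s, c u (Sum.inr n) := by
            rw [← Finset.sum_coe_sort s (fun u => c u (Sum.inr n))]
            show - (∑ u : s, f (c u)) n = _
            congr 1
            exact Finset.sum_apply n Finset.univ (fun u : s => f (c u))
          rw [e1]
          exact (eq_neg_of_add_eq_zero_left this).symm
      · have hne : t ≠ t0 := fun h => ht0 (h ▸ hts)
        simp only [hne, if_false]
        choose ε hε using fun i : I => hT t hts (g x i - sh t i (f x))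
        refine ⟨Sum.elim (fun p => ε p.1 p.2) (fun _ => false), ?_⟩
        intro i
        have h1 : f (x + mv (Sum.elim (fun p : I × N0 => ε p.1 p.2) (fun _ => false)) (k t))
            = f x := by
          funext n
          simp [f, mv]
        have h2 : g (x + mv (Sum.elim (fun p : I × N0 => ε p.1 p.2) (fun _ => false)) (k t)) i
            = g x i + mv (ε i) (k t) := by
          funext n
          rfl
        rw [h1, h2]
        have := hε i
        convert this using 1
        abel
    · intro c hc
      rw [Finset.sum_insert ht0]
      have h0 := hc t0 (Finset.mem_insert_self _ _)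
      simp only [if_true] at h0
      refine h0 c (fun t ht => ?_)
      have hne : t ≠ t0 := fun h => ht0 (h ▸ ht)
      have := hc t (Finset.mem_insert_of_mem ht)
      simpa only [hne, if_false] using this

end Pool.Agent.H975Z.LF
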