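import Pool.Agent.H975Z.LF.Defs
import Pool.Agent.H975Z.LF.Star
import Pool.Agent.H975Z.LF.Dual

namespace Pool.Agent.H975Z.LF

universe u v

theorem sum_group {R : Type u} [Ring R] {h g : ℕ} (s : Fin g → R) (τ : Fin g → ℕ)
    (ι : Fin g → Fin h) {W : Type v} [AddCommGroup W] [Module R W] (b : ℕ → Fin h → W) :
    ∑ j, s j • b (τ j) (ι j)
      = ∑ t ∈ Finset.univ.image τ, ∑ i, blockSum s τ ι t i • b t i := by
  simp only [blockSum, Finset.sum_smul, Finset.sum_filter, ite_smul, zero_smul]
  symm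
  calc ∑ t ∈ Finset.univ.image τ, ∑ i, ∑ j, (if τ j = t ∧ ι j = i then s j • b t i else 0)
      = ∑ t ∈ Finset.univ.image τ, ∑ j, ∑ i, (if τ j = t ∧ ι j = i then s j • b t i else 0) :=
        Finset.sum_congr rfl (fun t _ => Finset.sum_comm)
    _ = ∑ j, ∑ t ∈ Finset.univ.image τ, ∑ i, (if τ j = t ∧ ι j = i then s j • b t i else 0) :=
        Finset.sum_comm
    _ = ∑ j, s j • b (τ j) (ι j) := by
        refine Finset.sum_congr rfl (fun j _ => ?_)
        rw [Finset.sum_eq_single (τ j)]
        · rw [Finset.sum_eq_single (ι j)]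
          · simp
          · intro i _ hi
            simp [hi.symm]
          · simp
        · intro t _ ht
          simp [ht.symm]
        · intro hh
          exact absurd (Finset.mem_image_of_mem τ (Finset.mem_univ j)) hh

/-- The closedness condition on a right ideal. -/
def Crit {R : Type u} [Ring R] {h g : ℕ} (r : Fin h → R) (s : Fin g → R) (τ : Fin g → ℕ)
    (ι : Fin g → Fin h) : Prop :=
  ∃ J : Submodule Rᵐᵒᵖ R, J ≠ ⊤ ∧ Finite (R ⧸ J) ∧
    ∀ (t : ℕ) (x : R), (∀ i, blockSum s τ ι t i - x * r i ∈ J) → x ∈ J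

theorem exists_unused {g : ℕ} (τ : Fin g → ℕ) : ∃ t, ∀ j, τ j ≠ t := by
  obtain ⟨t, ht⟩ := Infinite.exists_notMem_finset (Finset.univ.image τ)
  exact ⟨t, fun j hj => ht (Finset.mem_image.mpr ⟨j, Finset.mem_univ _, hj⟩)⟩

theorem blockSum_unused {R : Type u} [Ring R] {h g : ℕ} (s : Fin g → R) (τ : Fin g → ℕ)
    (ι : Fin g → Fin h) (t : ℕ) (ht : ∀ j, τ j ≠ t) (i : Fin h) : blockSum s τ ι t i = 0 := by
  unfold blockSum
  refine Finset.sum_eq_zero (fun j hj => ?_)
  exact absurd (Finset.mem_filter.mp hj).2.1 (ht j)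

open Classical in
theorem sorted {R : Type u} [Ring R] {h g : ℕ} (r : Fin h → R) (s : Fin g → R) (τ : Fin g → ℕ)
    (ι : Fin g → Fin h) (hc : Crit r s τ ι) :
    ∃ (V : Type u) (_ : AddCommGroup V) (_ : Module R V) (_ : Finite V)
      (a : ℕ → V → Fin h → V) (v0 : V), (∀ t z, ∑ i, r i • a t z i = z) ∧
      ∀ z : ℕ → V, ∑ j, s j • a (τ j) (z (τ j)) (ι j) ≠ v0 := by
  obtain ⟨J, hJ, hfin, hcl⟩ := hc
  have h0 : ∀ x : R, (∀ i, x * r i ∈ J) → x ∈ J := by
    obtain ⟨t, ht⟩ := exists_unused τ
    intro x hx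
    refine hcl t x (fun i => ?_)
    rw [blockSum_unused s τ ι t ht, zero_sub]
    exact J.neg_mem (hx i)
  obtain ⟨V, iV, iM, fV, C, iC, fC, nC, π, hπ, hF, hσ⟩ := exists_dual r J hJ h0
  choose a0 ha0 using hF
  let P : ℕ → Prop := fun t => ∀ a : Fin h → V, π (∑ i, blockSum s τ ι t i • a i) = 0
  have hb : ∀ t, ∃ b : Fin h → V, ∑ i, r i • b i = 0 ∧
      (¬ P t → π (∑ i, blockSum s τ ι t i • b i) ≠ 0) := by
    intro t
    rcases hσ _ (hcl t) with h1 | ⟨b, hb1, hb2⟩
    · exact ⟨0, by simp, fun hn => absurd h1 hn⟩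
    · exact ⟨b, hb1, fun _ => hb2⟩
  choose b hb1 hb2 using hb
  let k : ℕ → C := fun t => π (∑ i, blockSum s τ ι t i • b t i)
  let S : Finset ℕ := (Finset.univ.image τ).filter (fun t => ¬ P t)
  obtain ⟨N, iN, T, v, hT, hv⟩ := star k S (fun t ht => hb2 t (Finset.mem_filter.mp ht).2)
  have hT' : ∀ t, ∀ c : N → C, ∃ ε : N → Bool, t ∈ S → c + mv ε (k t) ∈ T t := by
    intro t c
    by_cases ht : t ∈ S
    · obtain ⟨ε, hε⟩ := hT t ht c
      exact ⟨ε, fun _ => hε⟩
    · exact ⟨fun _ => false, fun h => absurd h ht⟩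
  choose ε hε using hT'
  choose v0 hv0 using fun n => hπ (v n)
  let c0 : ℕ → (N → V) → N → C := fun t z n => π (∑ i, blockSum s τ ι t i • a0 (z n) i)
  let a : ℕ → (N → V) → Fin h → N → V := fun t z i n =>
    a0 (z n) i + if ε t (c0 t z) n then b t i else 0
  refine ⟨N → V, inferInstance, inferInstance, inferInstance, a, v0, ?_, ?_⟩
  · intro t z
    funext n
    simp only [a, Finset.sum_apply, Pi.smul_apply, smul_add, Finset.sum_add_distrib, ha0]
    cases ε t (c0 t z) n
    · simp
    · simp [hb1]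
  · intro z hz
    rw [sum_group s τ ι (fun t => a t (z t))] at hz
    apply hv (fun t => c0 t (z t) + mv (ε t (c0 t (z t))) (k t)) (fun t ht => hε t _ ht)
    funext n
    have h1 := congrArg π (congrFun hz n)
    rw [hv0] at h1
    rw [← h1, Finset.sum_apply, Finset.sum_apply, map_sum, Finset.sum_filter]
    refine Finset.sum_congr rfl (fun t _ => ?_)
    by_cases hP : P t
    · rw [if_neg (not_not.mpr hP), Finset.sum_apply]
      exact (hP (fun i => a t (z t) i n)).symm
    · rw [if_pos hP, Finset.sum_apply]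
      simp only [a, Pi.smul_apply, smul_add, Finset.sum_add_distrib, map_add, Pi.add_apply, mv,
        c0, k]
      congr 1
      split_ifs
      · rfl
      · simp

theorem inj_of_card {X Y : Type*} {g m : ℕ} {iX : DecidableEq X} {iY : DecidableEq Y}
    (x : Fin g → X) (f : X → Y) (hx : (Finset.univ.image x).card ≤ m + 1)
    (hy : ¬ (Finset.univ.image (fun j => f (x j))).card ≤ m) :
    ∀ j j', f (x j) = f (x j') → x j = x j' := by
  have himg : Finset.univ.image (fun j => f (x j)) = (Finset.univ.image x).image f := by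
    rw [Finset.image_image]; rfl
  have hinj : Set.InjOn f (Finset.univ.image x : Set X) := by
    rw [← Finset.card_image_iff]
    apply le_antisymm Finset.card_image_le
    rw [← himg]
    omega
  exact fun j j' hjj => hinj (by simp) (by simp) hjj

open Classical in
theorem levels {R : Type u} [Ring R] {h g : ℕ} (hg : 1 ≤ g) (r : Fin h → R) (s : Fin g → R)
    (hc : ∀ τ ι, Crit r s τ ι) (m : ℕ) :
    ∃ (W : Type u) (_ : AddCommGroup W) (_ : Module R W) (_ : Finite W)
      (a : W → Fin h → W) (w0 : W), (∀ z, ∑ i, r i • a z i = z) ∧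
      ∀ (x : Fin g → W) (ι : Fin g → Fin h), (Finset.univ.image x).card ≤ m →
        ∑ j, s j • a (x j) (ι j) ≠ w0 := by
  induction m with
  | zero =>
    refine ⟨PUnit, inferInstance, inferInstance, inferInstance, fun _ _ => 0, 0,
      fun _ => Subsingleton.elim _ _, fun x ι hx => ?_⟩
    exfalso
    rw [Nat.le_zero, Finset.card_eq_zero, Finset.eq_empty_iff_forall_notMem] at hx
    apply hx (x ⟨0, hg⟩)
    simpa using (⟨⟨0, hg⟩⟩ : Nonempty (Fin g))
  | succ m ih =>
    obtain ⟨W, iW, iM, fW, a, w0, ha, hw⟩ := ih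
    obtain ⟨e, he⟩ := exists_injective_nat W
    choose V iV iMV fV av v0 hav hv using
      fun l : (Fin g → W) × (Fin g → Fin h) => sorted r s (e ∘ l.1) l.2 (hc _ _)
    refine ⟨W × (∀ l, V l), inferInstance, inferInstance, inferInstance,
      fun z i => (a z.1 i, fun l => av l (e z.1) (z.2 l) i), (w0, v0), ?_, ?_⟩
    · intro z
      apply Prod.ext
      · simp only [Prod.fst_sum, Prod.smul_fst]
        exact ha z.1
      · funext l
        simp only [Prod.snd_sum, Prod.smul_snd, Finset.sum_apply, Pi.smul_apply]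
        exact hav l _ _
    · intro x ι hx hsum
      by_cases hy : (Finset.univ.image (fun j => (x j).1)).card ≤ m
      · apply hw (fun j => (x j).1) ι hy
        have := congrArg Prod.fst hsum
        simpa only [Prod.fst_sum, Prod.smul_fst] using this
      · have hxx : ∀ j j', (x j).1 = (x j').1 → x j = x j' := inj_of_card x Prod.fst hx hy
        let l : (Fin g → W) × (Fin g → Fin h) := (fun j => (x j).1, ι)
        let z : ℕ → V l := fun t =>
          if ht : ∃ j, e (x j).1 = t then (x ht.choose).2 l else 0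
        have hz : ∀ j, z (e (x j).1) = (x j).2 l := by
          intro j
          have ht : ∃ j', e (x j').1 = e (x j).1 := ⟨j, rfl⟩
          simp only [z, dif_pos ht]
          rw [hxx _ _ (he ht.choose_spec)]
        apply hv l z
        have := congrFun (congrArg Prod.snd hsum) l
        simp only [Prod.snd_sum, Prod.smul_snd, Finset.sum_apply, Pi.smul_apply] at this
        rw [← this]
        refine Finset.sum_congr rfl (fun j _ => ?_)
        show s j • av l (e (x j).1) (z (e (x j).1)) (ι j) = _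
        rw [hz]

theorem exists_miss {R : Type u} [Ring R] {h g : ℕ} (hg : 1 ≤ g) (r : Fin h → R)
    (s : Fin g → R) (hc : ∀ τ ι, Crit r s τ ι) :
    ∃ (W : Type v) (_ : AddCommGroup W) (_ : Module R W) (_ : Finite W) (A : Set W) (w0 : W),
      formImage r A = Set.univ ∧ w0 ∉ formImage s A := by
  classical
  obtain ⟨W, iW, iM, fW, a, w0, ha, hw⟩ := levels hg r s hc g
  have : Small.{v} W := inferInstance
  let E : Shrink.{v} W ≃ₗ[R] W := Shrink.linearEquiv R W
  have fW' : Finite (Shrink.{v} W) := Finite.of_equiv W E.symm.toEquiv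
  refine ⟨Shrink.{v} W, inferInstance, inferInstance, fW', {y | ∃ z i, E y = a z i}, E.symm w0,
    ?_, ?_⟩
  · rw [Set.eq_univ_iff_forall]
    intro y
    refine ⟨fun i => E.symm (a (E y) i), fun i => ⟨E y, i, by simp⟩, ?_⟩
    apply E.injective
    simp [ha]
  · rintro ⟨b, hb, hsum⟩
    choose x ι hx using hb
    apply hw x ι
    · exact Finset.card_image_le.trans (by simp)
    · have := congrArg E hsum
      simpa [hx] using this

theorem power {R : Type u} [Ring R] {h g : ℕ} (hh : 1 ≤ h) (r : Fin h → R) (s : Fin g → R)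
    (W : Type v) [AddCommGroup W] [Module R W] [Finite W] (A : Set W) (w0 : W)
    (hA : formImage r A = Set.univ) (hw : w0 ∉ formImage s A) : PropertyS.{u, v} r s := by
  classical
  intro ε hε c hc
  have : Fintype W := Fintype.ofFinite W
  have hAne : A.Nonempty := by
    obtain ⟨a, ha, -⟩ : (0 : W) ∈ formImage r A := hA ▸ Set.mem_univ _
    exact ⟨a ⟨0, hh⟩, ha _⟩
  obtain ⟨a0, ha0⟩ := hAne
  have hq : 2 ≤ Fintype.card W := by
    have : Nontrivial W := ⟨⟨w0, ∑ j, s j • a0, fun hh => hw ⟨fun _ => a0, fun _ => ha0, hh.symm⟩⟩⟩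
    exact Fintype.one_lt_card
  set q := Fintype.card W with hqdef
  have hq' : (2 : ℝ) ≤ q := by exact_mod_cast hq
  have hlt : ((q : ℝ) - 1) / q < 1 := by rw [div_lt_one (by linarith)]; linarith
  have hge : (0 : ℝ) ≤ ((q : ℝ) - 1) / q := div_nonneg (by linarith) (by linarith)
  have t1 := (tendsto_pow_atTop_nhds_zero_of_lt_one hge hlt).eventually (gt_mem_nhds hε)
  have t2 := (tendsto_pow_atTop_atTop_of_one_lt (show (1 : ℝ) < q by linarith)).eventually
    (Filter.eventually_gt_atTop c)
  obtain ⟨n, hn1, hn2⟩ := (t1.and t2).exists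
  have hcard : (Nat.card (Fin n → W) : ℝ) = (q : ℝ) ^ n := by
    rw [Nat.card_eq_fintype_card]; simp [hqdef]
  refine ⟨Fin n → W, inferInstance, inferInstance, inferInstance, {x | ∀ k, x k ∈ A}, ?_, ?_, ?_⟩
  · rw [hcard]; exact hn2
  · rw [Set.eq_univ_iff_forall]
    intro x
    have : ∀ k, ∃ a : Fin h → W, (∀ i, a i ∈ A) ∧ ∑ i, r i • a i = x k := fun k =>
      (hA ▸ Set.mem_univ (x k) : x k ∈ formImage r A)
    choose a ha1 ha2 using this
    refine ⟨fun i k => a k i, fun i k => ha1 k i, ?_⟩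
    funext k
    simpa [Finset.sum_apply] using ha2 k
  · have hsub : formImage s {x : Fin n → W | ∀ k, x k ∈ A}
        ⊆ ↑(Fintype.piFinset (fun _ : Fin n => Finset.univ.erase w0)) := by
      rintro x ⟨a, ha1, ha2⟩
      simp only [Finset.mem_coe, Fintype.mem_piFinset, Finset.mem_erase, Finset.mem_univ,
        and_true]
      intro k hk
      apply hw
      refine ⟨fun j => a j k, fun j => ha1 j k, ?_⟩
      rw [← hk, ← ha2]
      simp [Finset.sum_apply]
    have h1 := Set.ncard_le_ncard hsub (Finset.finite_toSet _)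
    rw [Set.ncard_coe_finset, Fintype.card_piFinset] at h1
    simp only [Finset.card_erase_of_mem (Finset.mem_univ w0), Finset.card_univ,
      Finset.prod_const, Fintype.card_fin] at h1
    have h2 : ((formImage s {x : Fin n → W | ∀ k, x k ∈ A}).ncard : ℝ) ≤ ((q : ℝ) - 1) ^ n := by
      have : ((q - 1 : ℕ) : ℝ) = (q : ℝ) - 1 := by
        rw [Nat.cast_sub (by omega)]; simp
      rw [← this]
      exact_mod_cast h1
    rw [hcard]
    have h3 : ((q : ℝ) - 1) ^ n < ε * (q : ℝ) ^ n := by
      rw [div_pow, div_lt_iff₀ (by positivity)] at hn1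
      exact hn1
    linarith

theorem crit_of_miss {R : Type u} [Ring R] {h g : ℕ} (hh : 1 ≤ h) (r : Fin h → R)
    (s : Fin g → R) (W : Type v) [AddCommGroup W] [Module R W] [Finite W] (A : Set W) (w0 : W)
    (hA : formImage r A = Set.univ) (hw : w0 ∉ formImage s A) (τ : Fin g → ℕ)
    (ι : Fin g → Fin h) : Crit r s τ ι := by
  classical
  have hF : ∀ w : W, ∃ a : Fin h → W, (∀ i, a i ∈ A) ∧ ∑ i, r i • a i = w := fun w =>
    (hA ▸ Set.mem_univ w : w ∈ formImage r A)
  obtain ⟨a0, ha0⟩ : A.Nonempty := by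
    obtain ⟨a, ha, -⟩ := hF 0
    exact ⟨a ⟨0, hh⟩, ha _⟩
  let Q : AddSubgroup W → Prop := fun H => ∃ U : Finset ℕ,
    (∀ t ∈ U, ∀ i w, blockSum s τ ι t i • w ∈ H) ∧
    ∀ w ∈ H, ∃ b : ℕ → Fin h → W, (∀ t i, b t i ∈ A) ∧
      ∑ t ∈ U, ∑ i, blockSum s τ ι t i • b t i = w
  have hQ0 : Q ⊥ := ⟨∅, by simp, fun w hw => ⟨fun _ _ => a0, fun _ _ => ha0, by
    simpa [eq_comm] using hw⟩⟩
  obtain ⟨H, ⟨U, hU1, hU2⟩, hmax⟩ :=
    (Set.toFinite {H | Q H}).exists_maximal ⟨⊥, hQ0⟩
  let J : Submodule Rᵐᵒᵖ R :=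
    { carrier := {x | ∀ w : W, x • w ∈ H}
      add_mem' := fun {x y} hx hy w => by
        rw [add_smul]; exact H.add_mem (hx w) (hy w)
      zero_mem' := fun w => by rw [zero_smul]; exact H.zero_mem
      smul_mem' := fun c x hx w => by
        show (x * c.unop) • w ∈ H
        rw [mul_smul]; exact hx _ }
  have hJ : ∀ x : R, x ∈ J ↔ ∀ w : W, x • w ∈ H := fun _ => Iff.rfl
  refine ⟨J, ?_, ?_, ?_⟩
  · intro htop
    have h1 : ∀ w : W, w ∈ H := fun w => by
      have := (hJ 1).mp (htop ▸ Submodule.mem_top) w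
      rwa [one_smul] at this
    let U' := Finset.univ.image τ
    let c := ∑ t ∈ U'.filter (fun t => t ∉ U), ∑ i, blockSum s τ ι t i • a0
    obtain ⟨b, hb1, hb2⟩ := hU2 (w0 - c) (h1 _)
    let b' : ℕ → Fin h → W := fun t i => if t ∈ U then b t i else a0
    apply hw
    refine ⟨fun j => b' (τ j) (ι j), fun j => ?_, ?_⟩
    · simp only [b']
      split_ifs
      · exact hb1 _ _
      · exact ha0
    · rw [sum_group s τ ι b', ← Finset.sum_filter_add_sum_filter_not _ (fun t => t ∈ U)]
      have e1 : ∑ t ∈ U'.filter (fun t => t ∈ U), ∑ i, blockSum s τ ι t i • b' t i = w0 - c := by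
        rw [← hb2]
        have e2 : ∑ t ∈ U'.filter (fun t => t ∈ U), ∑ i, blockSum s τ ι t i • b' t i
            = ∑ t ∈ U'.filter (fun t => t ∈ U), ∑ i, blockSum s τ ι t i • b t i :=
          Finset.sum_congr rfl (fun t ht => by simp [b', (Finset.mem_filter.mp ht).2])
        rw [e2]
        refine Finset.sum_subset (fun t ht => (Finset.mem_filter.mp ht).2) (fun t ht hn => ?_)
        have : ∀ j, τ j ≠ t := fun j hj => hn (Finset.mem_filter.mpr
          ⟨Finset.mem_image.mpr ⟨j, Finset.mem_univ _, hj⟩, ht⟩)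
        simp [blockSum_unused s τ ι t this]
      have e3 : ∑ t ∈ U'.filter (fun t => t ∉ U), ∑ i, blockSum s τ ι t i • b' t i = c :=
        Finset.sum_congr rfl (fun t ht => by simp [b', (Finset.mem_filter.mp ht).2])
      rw [e1, e3, sub_add_cancel]
  · let f : R → W → W := fun x w => x • w
    refine Finite.of_surjective
      (fun φ : W → W => (Submodule.Quotient.mk (Function.invFun f φ) : R ⧸ J)) (fun y => ?_)
    obtain ⟨x, rfl⟩ := Submodule.Quotient.mk_surjective J y
    refine ⟨f x, (Submodule.Quotient.eq J).mpr ((hJ _).mpr (fun w => ?_))⟩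
    have : f (Function.invFun f (f x)) w = f x w :=
      congrFun (Function.invFun_eq ⟨x, rfl⟩) w
    simp only [f] at this
    rw [sub_smul, this, sub_self]
    exact H.zero_mem
  · intro t x hx
    have key : ∀ a : Fin h → W,
        ∑ i, blockSum s τ ι t i • a i - x • ∑ i, r i • a i ∈ H := by
      intro a
      rw [Finset.smul_sum, ← Finset.sum_sub_distrib]
      refine H.sum_mem (fun i _ => ?_)
      rw [← mul_smul, ← sub_smul]
      exact (hJ _).mp (hx i) _
    by_cases ht : t ∈ U
    · rw [hJ]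
      intro w
      obtain ⟨a, -, rfl⟩ := hF w
      have h1 : ∑ i, blockSum s τ ι t i • a i ∈ H := H.sum_mem (fun i _ => hU1 t ht i _)
      simpa using H.sub_mem h1 (key a)
    · let H' : AddSubgroup W :=
        { carrier := {y | ∃ w : W, y - x • w ∈ H}
          add_mem' := fun {y z} ⟨w1, h1⟩ ⟨w2, h2⟩ => ⟨w1 + w2, by
            have := H.add_mem h1 h2
            rw [smul_add]; convert this using 1; abel⟩
          zero_mem' := ⟨0, by simp⟩
          neg_mem' := fun {y} ⟨w1, h1⟩ => ⟨-w1, by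
            have := H.neg_mem h1
            rw [smul_neg]; convert this using 1; abel⟩ }
      have hle : H ≤ H' := fun y hy => ⟨0, by simpa using hy⟩
      have hQ' : Q H' := by
        refine ⟨insert t U, ?_, ?_⟩
        · intro t' ht' i w
          rcases Finset.mem_insert.mp ht' with rfl | ht'
          · refine ⟨r i • w, ?_⟩
            rw [← mul_smul, ← sub_smul]
            exact (hJ _).mp (hx i) _
          · exact hle (hU1 t' ht' i w)
        · rintro y ⟨w, hy⟩
          obtain ⟨a, ha, rfl⟩ := hF w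
          obtain ⟨b, hb1, hb2⟩ := hU2 _ (H.sub_mem hy (key a))
          refine ⟨Function.update b t a, fun t' i => ?_, ?_⟩
          · by_cases e : t' = t
            · subst e; simpa using ha i
            · rw [Function.update_of_ne e]; exact hb1 _ _
          · rw [Finset.sum_insert ht, Function.update_self]
            have e2 : ∑ t' ∈ U, ∑ i, blockSum s τ ι t' i • Function.update b t a t' i
                = ∑ t' ∈ U, ∑ i, blockSum s τ ι t' i • b t' i :=
              Finset.sum_congr rfl (fun t' ht' => by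
                have hne : t' ≠ t := fun e => ht (e ▸ ht')
                rw [Function.update_of_ne hne])
            rw [e2, hb2]
            abel
      have hge : H' ≤ H := hmax hQ' hle
      rw [hJ]
      intro w
      exact hge ⟨w, by simp⟩

theorem miss_of_S {R : Type u} [Ring R] {h g : ℕ} (r : Fin h → R)
    (s : Fin g → R) (hS : PropertyS.{u, v} r s) :
    ∃ (W : Type v) (_ : AddCommGroup W) (_ : Module R W) (_ : Finite W) (A : Set W) (w0 : W),
      formImage r A = Set.univ ∧ w0 ∉ formImage s A := by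
  obtain ⟨W, iW, iM, fW, A, -, hA, hlt⟩ := hS 1 one_pos 1 one_pos
  have : ∃ w0, w0 ∉ formImage s A := by
    by_contra hcon
    push Not at hcon
    rw [Set.eq_univ_iff_forall.mpr hcon, Set.ncard_univ, one_mul] at hlt
    exact lt_irrefl _ hlt
  obtain ⟨w0, hw⟩ := this
  exact ⟨W, iW, iM, fW, A, w0, hA, hw⟩

end Pool.Agent.H975Z.LF
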